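import Mathlib

namespace Pool.Agent.Results.MP_e3bb54_nt.Gap

open Finset

abbrev V := ℕ × ℕ

abbrev I := V ⊕ V ⊕ (ℕ × V)

noncomputable def pr (k : I) : ℕ := Nat.nth Nat.Prime (Encodable.encode k)

lemma pr_prime (k : I) : (pr k).Prime := Nat.prime_nth_prime _

lemma pr_inj : Function.Injective pr :=
  (Nat.nth_injective Nat.infinite_setOf_prime).comp Encodable.encode_injective

lemma pr_dvd (k : I) (T : Finset I) : pr k ∣ ∏ j ∈ T, pr j ↔ k ∈ T := by
  rw [(pr_prime k).prime.dvd_finsetProd_iff]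
  constructor
  · rintro ⟨j, hj, h⟩
    rwa [pr_inj ((Nat.prime_dvd_prime_iff_eq (pr_prime k) (pr_prime j)).mp h)]
  · intro h
    exact ⟨k, h, dvd_rfl⟩

def pt (e : ℕ × V) : V := (e.1, e.2.1 * e.1 + e.2.2)

def inY (e : ℕ × V) (l : V) : Prop := l ≠ e.2 ∧ pt (e.1, l) = pt e

def inX (e : ℕ × V) (x : V) : Prop := x = pt e ∨ ∃ l, inY e l ∧ x = pt (x.1, l)

def r (e : ℕ × V) : I := Sum.inr (Sum.inr e)

lemma r_inj : Function.Injective r := fun _ _ h => by simpa [r] using h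

open Classical in
noncomputable def T (E : Finset (ℕ × V)) (e : ℕ × V) : Finset I :=
  insert (Sum.inl (pt e)) (insert (Sum.inr (Sum.inl e.2))
    ((E.filter fun f => inX f (pt e) ∧ ¬ inY f e.2).image r))

noncomputable def a (E : Finset (ℕ × V)) (e : ℕ × V) : ℕ := ∏ j ∈ T E e, pr j

open Classical in
noncomputable def xv (E : Finset (ℕ × V)) (x : V) : ℝ :=
  pr (Sum.inl x) * ∏ f ∈ E.filter fun f => inX f x, (pr (r f) : ℝ)

open Classical in
noncomputable def yv (E : Finset (ℕ × V)) (l : V) : ℝ :=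
  pr (Sum.inr (Sum.inl l)) / ∏ f ∈ E.filter fun f => inY f l, (pr (r f) : ℝ)

lemma pr_pos (k : I) : (0 : ℝ) < pr k := by exact_mod_cast (pr_prime k).pos

lemma xv_pos (E : Finset (ℕ × V)) (x : V) : 0 < xv E x :=
  mul_pos (pr_pos _) (prod_pos fun _ _ => pr_pos _)

lemma yv_pos (E : Finset (ℕ × V)) (l : V) : 0 < yv E l :=
  div_pos (pr_pos _) (prod_pos fun _ _ => pr_pos _)

lemma a_eq (E : Finset (ℕ × V)) (e : ℕ × V) : (a E e : ℝ) = xv E (pt e) * yv E e.2 := by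
  classical
  unfold a T xv yv
  rw [prod_insert (by simp [r]), prod_insert (by simp [r]),
    prod_image (fun _ _ _ _ h => r_inj h)]
  have h1 := prod_filter_mul_prod_filter_not (E.filter fun f => inX f (pt e))
    (fun f => inY f e.2) (fun f => (pr (r f) : ℝ))
  rw [filter_filter, filter_filter] at h1
  have h2 : (E.filter fun f => inX f (pt e) ∧ inY f e.2) = E.filter fun f => inY f e.2 :=
    filter_congr fun f _ => ⟨fun h => h.2, fun h => ⟨Or.inr ⟨e.2, h, rfl⟩, h⟩⟩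
  rw [h2] at h1
  rw [← h1]
  have : (0 : ℝ) < ∏ f ∈ E.filter fun f => inY f e.2, (pr (r f) : ℝ) :=
    prod_pos fun _ _ => pr_pos _
  push_cast
  field_simp

lemma mem1 (E : Finset (ℕ × V)) (e f : ℕ × V) : Sum.inl (pt f) ∈ T E e ↔ pt f = pt e := by
  simp [T, r]

lemma mem2 (E : Finset (ℕ × V)) (e f : ℕ × V) : Sum.inr (Sum.inl f.2) ∈ T E e ↔ f.2 = e.2 := by
  simp [T, r]

lemma mem3 (E : Finset (ℕ × V)) (e f : ℕ × V) :
    r f ∈ T E e ↔ f ∈ E ∧ inX f (pt e) ∧ ¬ inY f e.2 := by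
  classical
  unfold T
  rw [mem_insert, mem_insert, r_inj.mem_finset_image, mem_filter]
  simp [r]

def Two (c : ℕ) (e : ℕ × V) : Prop :=
  (pr (Sum.inl (pt e)) ∣ c ∧ pr (Sum.inr (Sum.inl e.2)) ∣ c) ∨
  (pr (Sum.inl (pt e)) ∣ c ∧ pr (r e) ∣ c) ∨ (pr (Sum.inr (Sum.inl e.2)) ∣ c ∧ pr (r e) ∣ c)

lemma two_eq (E : Finset (ℕ × V)) (c : ℕ) (e f : ℕ × V) (h : Two c f) (hc : c ∣ a E e) :
    f = e := by
  obtain ⟨s, m, k⟩ := e
  obtain ⟨s', m', k'⟩ := f
  rcases h with ⟨h1, h2⟩ | ⟨h1, h2⟩ | ⟨h1, h2⟩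
  · have a1 := (mem1 E _ _).mp ((pr_dvd _ _).mp (h1.trans hc))
    have a2 := (mem2 E _ _).mp ((pr_dvd _ _).mp (h2.trans hc))
    have hs : s' = s := congrArg Prod.fst a1
    exact Prod.ext hs a2
  · have a1 := (mem1 E _ _).mp ((pr_dvd _ _).mp (h1.trans hc))
    have a2 := ((mem3 E _ _).mp ((pr_dvd _ _).mp (h2.trans hc))).2.2
    have hs : s' = s := congrArg Prod.fst a1
    subst hs
    by_contra hn
    exact a2 ⟨fun h => hn (Prod.ext rfl h.symm), a1.symm⟩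
  · have a1 := (mem2 E _ _).mp ((pr_dvd _ _).mp (h1.trans hc))
    have a2 := ((mem3 E _ _).mp ((pr_dvd _ _).mp (h2.trans hc))).2.1
    refine Prod.ext ?_ a1
    rcases a2 with h | ⟨⟨m2, k2⟩, ⟨h3, h4⟩, h5⟩
    · exact (congrArg Prod.fst h).symm
    · simp only [Prod.mk.injEq] at a1
      obtain ⟨rfl, rfl⟩ := a1
      simp only [pt, Prod.mk.injEq, true_and] at h4 h5
      by_contra hn
      apply h3
      have h6 : ((m2 : ℤ) - m') * (s' - s) = 0 := by
        zify at h4 h5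
        linear_combination h4 + h5
      rcases mul_eq_zero.mp h6 with h7 | h7
      · have : m2 = m' := by omega
        subst this
        simp only [Prod.mk.injEq, true_and]
        omega
      · exact absurd (by omega) hn

lemma lower (E : Finset (ℕ × V)) (C : Finset ℕ)
    (h : ∀ e ∈ E, ∃ x ∈ C, ∃ y ∈ C, a E e = x * y) : #E ≤ #C := by
  have key : ∀ e, ∃ c, e ∈ E → c ∈ C ∧ c ∣ a E e ∧ Two c e := by
    intro e
    by_cases he : e ∈ E
    · obtain ⟨x, hx, y, hy, hxy⟩ := h e he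
      have d1 := (pr_dvd _ _).mpr ((mem1 E e e).mpr rfl)
      have d2 := (pr_dvd _ _).mpr ((mem2 E e e).mpr rfl)
      have d3 := (pr_dvd _ _).mpr ((mem3 E e e).mpr ⟨he, Or.inl rfl, fun h => h.1 rfl⟩)
      change _ ∣ a E e at d1 d2 d3
      rw [hxy, (pr_prime _).dvd_mul] at d1 d2 d3
      have : Two x e ∨ Two y e := by
        unfold Two
        tauto
      rcases this with h | h
      · exact ⟨x, fun _ => ⟨hx, ⟨y, hxy⟩, h⟩⟩
      · exact ⟨y, fun _ => ⟨hy, ⟨x, by rw [hxy, mul_comm]⟩, h⟩⟩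
    · exact ⟨0, fun h => absurd h he⟩
  choose f hf using key
  refine card_le_card_of_injOn f (fun e he => (hf e he).1) fun e he e' he' hh => ?_
  exact two_eq E (f e) e' e (hf e he).2.2 (hh ▸ (hf e' he').2.1)

lemma pad (B : Finset ℝ) (hB : ∀ b ∈ B, 0 < b) (d : ℕ) :
    ∃ B' : Finset ℝ, B ⊆ B' ∧ #B' = #B + d ∧ ∀ b ∈ B', 0 < b := by
  classical
  induction d with
  | zero => exact ⟨B, Subset.rfl, rfl, hB⟩
  | succ d ih =>
    obtain ⟨B', h1, h2, h3⟩ := ih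
    obtain ⟨x, hx, hx'⟩ := (Set.Ioi_infinite (0 : ℝ)).exists_notMem_finset B'
    refine ⟨insert x B', h1.trans (subset_insert _ _), by rw [card_insert_of_notMem hx', h2]; ring,
      fun b hb => ?_⟩
    rcases mem_insert.mp hb with rfl | hb
    · exact hx
    · exact h3 b hb

theorem result : ∃ ε : ℝ, 0 < ε ∧ ∃ n₀ : ℕ, ∀ n > n₀, ∃ (B : Finset ℝ) (A : Finset ℕ),
    (∀ b ∈ B, 0 < b) ∧ #B = n ∧ (∀ a ∈ A, 0 < a ∧ ∃ x ∈ B, ∃ y ∈ B, (a : ℝ) = x * y) ∧
    ∀ C : Finset ℕ, (∀ c ∈ C, 0 < c) → (#C : ℝ) < (n : ℝ) ^ (1 + ε) →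
      ¬ ∀ a ∈ A, ∃ x ∈ C, ∃ y ∈ C, a = x * y := by
  classical
  refine ⟨1 / 6, by norm_num, 24 ^ 8, fun n hn => ?_⟩
  obtain ⟨q, q1, q2⟩ : ∃ q : ℕ, 3 * q ^ 3 ≤ n ∧ n < 3 * (q + 1) ^ 3 := by
    have ex : ∃ q : ℕ, n < 3 * (q + 1) ^ 3 := ⟨n, by nlinarith [Nat.zero_le (n ^ 3), sq_nonneg n]⟩
    refine ⟨Nat.find ex, ?_, Nat.find_spec ex⟩
    rcases Nat.eq_zero_or_pos (Nat.find ex) with h | h
    · rw [h]; simp
    · have := Nat.find_min ex (m := Nat.find ex - 1) (by omega)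
      rw [show Nat.find ex - 1 + 1 = Nat.find ex by omega] at this
      omega
  have q0 : 1 ≤ q := by
    by_contra h
    have : q = 0 := by omega
    subst this
    omega
  have q3 : n ≤ 24 * q ^ 3 := by
    have : (q + 1) ^ 3 ≤ (2 * q) ^ 3 := Nat.pow_le_pow_left (by omega) 3
    nlinarith
  set Y : Finset V := range q ×ˢ range (q ^ 2)
  set X : Finset V := range q ×ˢ range (2 * q ^ 2)
  set E : Finset (ℕ × V) := range q ×ˢ Y
  have cB : #(X.image (xv E) ∪ Y.image (yv E)) ≤ n := by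
    refine (card_union_le _ _).trans ((add_le_add card_image_le card_image_le).trans ?_)
    simp only [X, Y, card_product, card_range]
    nlinarith
  obtain ⟨B, b1, b2, b3⟩ := pad (X.image (xv E) ∪ Y.image (yv E)) (by
    intro b hb
    rcases mem_union.mp hb with h | h
    · obtain ⟨x, -, rfl⟩ := mem_image.mp h
      exact xv_pos _ _
    · obtain ⟨x, -, rfl⟩ := mem_image.mp h
      exact yv_pos _ _) (n - #(X.image (xv E) ∪ Y.image (yv E)))
  refine ⟨B, E.image (a E), b3, by omega, fun z hz => ?_, fun C _ hC h => ?_⟩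
  · obtain ⟨e, he, rfl⟩ := mem_image.mp hz
    refine ⟨prod_pos fun j _ => (pr_prime j).pos, xv E (pt e),
      b1 (mem_union_left _ (mem_image_of_mem _ ?_)), yv E e.2,
      b1 (mem_union_right _ (mem_image_of_mem _ (mem_product.mp he).2)), a_eq E e⟩
    simp only [E, X, Y, mem_product, mem_range, pt] at he ⊢
    refine ⟨he.1, ?_⟩
    have := Nat.mul_le_mul he.1.le he.2.1.le
    nlinarith [he.2.2]
  · have h1 := lower E C fun e he => h _ (mem_image_of_mem _ he)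
    have h2 : #E = q ^ 4 := by
      simp only [E, Y, card_product, card_range]
      ring
    have h3 : (#C : ℝ) ^ 6 < (n : ℝ) ^ 7 := by
      have := pow_lt_pow_left₀ hC (Nat.cast_nonneg _) (show 6 ≠ 0 by norm_num)
      rwa [← Real.rpow_natCast ((n : ℝ) ^ _), ← Real.rpow_mul (Nat.cast_nonneg _),
        show (1 + 1 / 6 : ℝ) * (6 : ℕ) = (7 : ℕ) by norm_num, Real.rpow_natCast] at this
    have h4 : #C ^ 6 < n ^ 7 := by exact_mod_cast h3
    have h5 : (q ^ 4) ^ 6 ≤ #C ^ 6 := Nat.pow_le_pow_left (h2 ▸ h1) 6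
    have h6 : n ^ 7 ≤ (24 * q ^ 3) ^ 7 := Nat.pow_le_pow_left q3 7
    have h7 : 24 ^ 7 ≤ q ^ 3 := by omega
    have h8 : (24 * q ^ 3) ^ 7 ≤ (q ^ 4) ^ 6 := by
      calc (24 * q ^ 3) ^ 7 = 24 ^ 7 * q ^ 21 := by ring
        _ ≤ q ^ 3 * q ^ 21 := Nat.mul_le_mul_right _ h7
        _ = (q ^ 4) ^ 6 := by ring
    omega

end Pool.Agent.Results.MP_e3bb54_nt.Gap
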